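import Mathlib
import Pool.Agent.H44.KD4

namespace Pool.Agent.Results.MP_cfbcde_co.Value

open Pool.Agent.H44.KD

theorem result : ∀ k : ℕ, 1 ≤ k →
    Filter.Tendsto (fun N => low k N) Filter.atTop (nhds (1 / (4 * (k : ℝ)))) :=
  fun _ hk => main hk

end Pool.Agent.Results.MP_cfbcde_co.Value
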